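import Pool.Agent.Run7.h343.PV.Iface4
import Pool.Agent.Run7.h220.PV.FM2

/-!
# Project PV (helper343): the piece FM2D
-/

set_option autoImplicit false

namespace Pool.Agent.Run7.h957.PV

open Pool.Agent.Run7.h343.PV
open Pool.Agent.Run7.h220.PV
open Finset Complex

/-- the coefficient of the pair `(n, l)` -/
noncomputable def cf {p ν : ℕ} (χ : DirichletCharacter ℂ (p ^ ν)) (Y : ℝ) (w : ℝ → ℝ)
    (n l : ℕ) : ℂ :=
  (starRingEnd ℂ) (χ (n : ZMod (p ^ ν))) * χ (l : ZMod (p ^ ν)) *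
    ((mu l * PL Y l * w (Real.log n) / Real.sqrt ((n : ℝ) * l) : ℝ) : ℂ)

theorem expand {p ν m N : ℕ} (hmν : m ≤ ν) (χ : DirichletCharacter ℂ (p ^ ν))
    (Y : ℝ) (u : ℤ) (w : ℝ → ℝ) (θ : DirichletCharacter ℂ (p ^ m)) :
    θ (u : ZMod (p ^ m)) *
      (Mol Y (tw hmν χ θ) * (starRingEnd ℂ) (AA N w (tw hmν χ θ))) =
      ∑ l ∈ Icc 1 ⌊Y⌋₊, ∑ n ∈ Icc 1 N, cf χ Y w n l *
        (θ ((u * l : ℤ) : ZMod (p ^ m)) * (starRingEnd ℂ) (θ (n : ZMod (p ^ m)))) := by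
  unfold Mol AA cf
  rw [map_sum, sum_mul_sum, mul_sum]
  refine sum_congr rfl fun l _ => ?_
  rw [mul_sum]
  refine sum_congr rfl fun n _ => ?_
  rw [tw_nat, tw_nat, map_mul, map_mul, Complex.conj_ofReal, Int.cast_mul, map_mul,
    Int.cast_natCast, Real.sqrt_mul (Nat.cast_nonneg n)]
  push_cast
  rw [div_eq_mul_inv, div_eq_mul_inv, div_eq_mul_inv, mul_inv]
  ring

theorem orthd {k : ℕ} [NeZero k] (d : ℕ) (hd : d ≠ 0) (x : ZMod k) {y : ZMod k} (hy : IsUnit y) :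
    ∑ θ : DirichletCharacter ℂ k, (θ ^ d) x * (starRingEnd ℂ) ((θ ^ d) y) =
      if y ^ d = x ^ d then ((Nat.totient k : ℕ) : ℂ) else 0 := by
  have h1 : ∀ (θ : DirichletCharacter ℂ k) (z : ZMod k), (θ ^ d) z = θ (z ^ d) := by
    intro θ z
    rw [MulChar.pow_apply' θ hd z, map_pow]
  simp only [h1]
  exact orth2 _ (hy.pow d)

/-- the roots of unity -/
noncomputable def Om (k d : ℕ) [NeZero k] : Finset (ZMod k)ˣ :=
  (univ : Finset (ZMod k)ˣ).filter (fun ω => ω ^ d = 1)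

/-- the condition on the pair -/
def cond (k : ℕ) (b : ℤ) (n l : ℕ) (ω : (ZMod k)ˣ) : Prop :=
  (k : ℤ) ∣ (n : ℤ) - (((ω : ZMod k).val : ℤ) * b) * l

instance (k : ℕ) (b : ℤ) (n l : ℕ) (ω : (ZMod k)ˣ) : Decidable (cond k b n l ω) := by
  unfold cond
  infer_instance

theorem cond_iff (k : ℕ) [NeZero k] (b : ℤ) (n l : ℕ) (ω : (ZMod k)ˣ) :
    cond k b n l ω ↔ (n : ZMod k) = ω * (b * l) := by
  unfold cond
  rw [← ZMod.intCast_eq_intCast_iff_dvd_sub]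
  push_cast
  rw [ZMod.natCast_zmod_val, mul_assoc, eq_comm]

theorem count_one (k d : ℕ) [NeZero k] (b : ℤ) (n l : ℕ) (hb : IsUnit (b : ZMod k))
    (hn : IsUnit (n : ZMod k)) (hl : IsUnit (l : ZMod k)) :
    ∑ ω ∈ Om k d, (if cond k b n l ω then (1 : ℂ) else 0) =
      if (n : ZMod k) ^ d = ((b : ZMod k) * l) ^ d then 1 else 0 := by
  obtain ⟨v, hv⟩ := hb.mul hl
  obtain ⟨x, hx⟩ := hn
  simp only [cond_iff]
  rw [← hv, ← hx]
  by_cases h : (x : ZMod k) ^ d = (v : ZMod k) ^ d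
  · rw [if_pos h]
    have h' : x ^ d = v ^ d := Units.ext (by push_cast; exact h)
    rw [Finset.sum_eq_single (x * v⁻¹)]
    · rw [if_pos]
      push_cast
      rw [mul_assoc, Units.inv_mul, mul_one]
    · intro ω _ hω
      rw [if_neg]
      intro h2
      apply hω
      have h3 : x = ω * v := Units.ext (by push_cast; exact h2)
      rw [h3, mul_inv_cancel_right]
    · intro h2
      exfalso
      apply h2
      unfold Om
      rw [Finset.mem_filter]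
      refine ⟨Finset.mem_univ _, ?_⟩
      rw [mul_pow, inv_pow, h', mul_inv_cancel]
  · rw [if_neg h]
    refine Finset.sum_eq_zero fun ω hω => ?_
    rw [if_neg]
    intro h2
    apply h
    unfold Om at hω
    have h3 := (Finset.mem_filter.mp hω).2
    have h4 : ((ω : ZMod k)) ^ d = 1 := by
      rw [← Units.val_pow_eq_pow_val, h3, Units.val_one]
    rw [h2, mul_pow, h4, one_mul]

theorem cf_zero_n {p ν m : ℕ} (hmν : m ≤ ν) (χ : DirichletCharacter ℂ (p ^ ν)) (Y : ℝ)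
    (w : ℝ → ℝ) (n l : ℕ) (hn : ¬ IsUnit (n : ZMod (p ^ m))) : cf χ Y w n l = 0 := by
  have h2 : χ (n : ZMod (p ^ ν)) = 0 := by
    apply MulChar.map_nonunit
    intro h3
    apply hn
    have h4 := h3.map (ZMod.castHom (pow_dvd_pow p hmν) (ZMod (p ^ m)))
    simpa using h4
  unfold cf
  rw [h2, map_zero, zero_mul, zero_mul]

theorem cf_zero_l {p ν m : ℕ} (hmν : m ≤ ν) (χ : DirichletCharacter ℂ (p ^ ν)) (Y : ℝ)
    (w : ℝ → ℝ) (n l : ℕ) (hn : ¬ IsUnit (l : ZMod (p ^ m))) : cf χ Y w n l = 0 := by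
  have h2 : χ (l : ZMod (p ^ ν)) = 0 := by
    apply MulChar.map_nonunit
    intro h3
    apply hn
    have h4 := h3.map (ZMod.castHom (pow_dvd_pow p hmν) (ZMod (p ^ m)))
    simpa using h4
  unfold cf
  rw [h2, mul_zero, zero_mul]

theorem dual_sumd {p ν m N : ℕ} (hmν : m ≤ ν) [NeZero (p ^ m)] (χ : DirichletCharacter ℂ (p ^ ν))
    (Y : ℝ) (b : ℤ) (w : ℝ → ℝ) (d : ℕ) (hd : d ≠ 0) (hb : IsUnit (b : ZMod (p ^ m))) :
    ∑ θ : DirichletCharacter ℂ (p ^ m), (θ ^ d) (b : ZMod (p ^ m)) *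
      (Mol Y (tw hmν χ (θ ^ d)) * (starRingEnd ℂ) (AA N w (tw hmν χ (θ ^ d)))) =
    ((Nat.totient (p ^ m) : ℕ) : ℂ) * ∑ ω ∈ Om (p ^ m) d, ∑ l ∈ Icc 1 ⌊Y⌋₊,
      ∑ n ∈ (Icc 1 N).filter (fun n : ℕ => cond (p ^ m) b n l ω), cf χ Y w n l := by
  have hL : ∑ θ : DirichletCharacter ℂ (p ^ m), (θ ^ d) (b : ZMod (p ^ m)) *
      (Mol Y (tw hmν χ (θ ^ d)) * (starRingEnd ℂ) (AA N w (tw hmν χ (θ ^ d)))) =
      ∑ l ∈ Icc 1 ⌊Y⌋₊, ∑ n ∈ Icc 1 N, cf χ Y w n l *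
        ∑ θ : DirichletCharacter ℂ (p ^ m), ((θ ^ d) ((b * l : ℤ) : ZMod (p ^ m)) *
          (starRingEnd ℂ) ((θ ^ d) (n : ZMod (p ^ m)))) := by
    rw [sum_congr rfl fun θ _ => expand hmν χ Y b w (θ ^ d), sum_comm]
    refine sum_congr rfl fun l _ => ?_
    rw [sum_comm]
    refine sum_congr rfl fun n _ => ?_
    rw [mul_sum]
  have hR : ((Nat.totient (p ^ m) : ℕ) : ℂ) * ∑ ω ∈ Om (p ^ m) d, ∑ l ∈ Icc 1 ⌊Y⌋₊,
      ∑ n ∈ (Icc 1 N).filter (fun n : ℕ => cond (p ^ m) b n l ω), cf χ Y w n l =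
      ∑ l ∈ Icc 1 ⌊Y⌋₊, ∑ n ∈ Icc 1 N, cf χ Y w n l * (((Nat.totient (p ^ m) : ℕ) : ℂ) *
        ∑ ω ∈ Om (p ^ m) d, (if cond (p ^ m) b n l ω then (1 : ℂ) else 0)) := by
    rw [sum_comm, mul_sum]
    refine sum_congr rfl fun l _ => ?_
    have h1 : ∀ ω ∈ Om (p ^ m) d, ∑ n ∈ (Icc 1 N).filter
        (fun n : ℕ => cond (p ^ m) b n l ω), cf χ Y w n l =
        ∑ n ∈ Icc 1 N, cf χ Y w n l * (if cond (p ^ m) b n l ω then (1 : ℂ) else 0) := by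
      intro ω _
      rw [sum_filter]
      refine sum_congr rfl fun n _ => ?_
      rw [mul_ite, mul_one, mul_zero]
    rw [sum_congr rfl h1, sum_comm, mul_sum]
    refine sum_congr rfl fun n _ => ?_
    rw [← mul_sum]
    ring
  rw [hL, hR]
  refine sum_congr rfl fun l _ => sum_congr rfl fun n _ => ?_
  by_cases hn : IsUnit (n : ZMod (p ^ m))
  · by_cases hl : IsUnit (l : ZMod (p ^ m))
    · rw [count_one (p ^ m) d b n l hb hn hl, orthd d hd _ hn]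
      push_cast
      split_ifs
      · rw [mul_one]
      · rw [mul_zero, mul_zero, mul_zero]
    · rw [cf_zero_l hmν χ Y w n l hl, zero_mul, zero_mul]
  · rw [cf_zero_n hmν χ Y w n l hn, zero_mul, zero_mul]

theorem card_Om {p m : ℕ} [NeZero (p ^ m)] (hp : p.Prime) (hp2 : p ≠ 2) (d : ℕ) (hd : 0 < d) :
    (Om (p ^ m) d).card ≤ d := by
  have : IsCyclic (ZMod (p ^ m))ˣ := ZMod.isCyclic_units_of_prime_pow p hp hp2 m
  unfold Om
  exact IsCyclic.card_pow_eq_one_le hd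

theorem t_FM2D (h : S_DUAL) : S_FM2D := by
  obtain ⟨C, hC, hD⟩ := h
  refine ⟨C, hC, ?_⟩
  intro d hd p ν m N hmν _ χ Y U b w hp hp2 hm hN hb hY hU hw hwl
  have hbu : IsUnit (b : ZMod (p ^ m)) := by
    rw [ZMod.coe_int_isUnit_iff_isCoprime]
    push_cast
    refine IsCoprime.pow_left ?_
    exact (Nat.prime_iff_prime_int.mp hp).coprime_iff_not_dvd.mpr hb
  rw [dual_sumd hmν χ Y b w d (by omega) hbu, norm_mul, Complex.norm_natCast]
  set D : ℝ := C * (1 / Real.log Y + 1 / U) +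
      C * Y ^ 2 * (1 / Real.sqrt ((p : ℝ) ^ m) + Real.sqrt N / (p : ℝ) ^ m) with hDdef
  refine mul_le_mul_of_nonneg_left ?_ (Nat.cast_nonneg _)
  have hω : ∀ ω ∈ Om (p ^ m) d, ‖∑ l ∈ Icc 1 ⌊Y⌋₊,
      ∑ n ∈ (Icc 1 N).filter (fun n : ℕ => cond (p ^ m) b n l ω), cf χ Y w n l‖ ≤ D := by
    intro ω _
    refine hD p ν m N Y U ((((ω : ZMod (p ^ m)).val : ℕ) : ℤ) * b) w χ hp hm hmν hN ?_ hY hU hw hwl
    intro hdvd
    rcases (Nat.prime_iff_prime_int.mp hp).dvd_or_dvd hdvd with h1 | h1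
    · have h2 : (p : ℕ) ∣ (ω : ZMod (p ^ m)).val := by exact_mod_cast h1
      have h3 : (ω : ZMod (p ^ m)).val.Coprime (p ^ m) := ZMod.val_coe_unit_coprime ω
      have h4 : p ∣ Nat.gcd (ω : ZMod (p ^ m)).val (p ^ m) :=
        Nat.dvd_gcd h2 (dvd_pow_self p (by omega))
      rw [h3] at h4
      exact hp.one_lt.ne' (Nat.dvd_one.mp h4)
    · exact hb h1
  have hD0 : 0 ≤ D := by
    have h1 : (1 : (ZMod (p ^ m))ˣ) ∈ Om (p ^ m) d := by
      unfold Om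
      rw [Finset.mem_filter]
      exact ⟨Finset.mem_univ _, one_pow _⟩
    exact (norm_nonneg _).trans (hω 1 h1)
  calc ‖∑ ω ∈ Om (p ^ m) d, ∑ l ∈ Icc 1 ⌊Y⌋₊,
      ∑ n ∈ (Icc 1 N).filter (fun n : ℕ => cond (p ^ m) b n l ω), cf χ Y w n l‖
      ≤ ∑ ω ∈ Om (p ^ m) d, D := (norm_sum_le _ _).trans (sum_le_sum hω)
    _ = (Om (p ^ m) d).card * D := by rw [sum_const, nsmul_eq_mul]
    _ ≤ d * D := mul_le_mul_of_nonneg_right
        (by exact_mod_cast card_Om hp hp2 d (by omega)) hD0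

end Pool.Agent.Run7.h957.PV
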